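import Pool.Agent.Helper76.DE.StT

/-!
# Project PRD, module Ha: `n` steps of the random walk
-/

set_option autoImplicit false

noncomputable section

namespace Pool.Agent.Helper82.PRD

open Pool.Agent.Helper76.ND Pool.Agent.Helper76.DE Finset

theorem la_pos : 0 < la := Real.log_pos (by norm_num)

theorem lb_pos : 0 < lb := Real.log_pos (by norm_num)

/-- Pascal -/
theorem pascal_Ha (n : ℕ) (φ : ℕ → ℝ) : ∑ j ∈ range (n + 2), q (n + 1) j * φ j =
    (∑ k ∈ range (n + 1), q n k * φ k + ∑ k ∈ range (n + 1), q n k * φ (k + 1)) / 2 := by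
  have h1 : ∑ j ∈ range (n + 2), q (n + 1) j * φ j =
      ∑ j ∈ range (n + 1), q (n + 1) (j + 1) * φ (j + 1) + q (n + 1) 0 * φ 0 := by
    rw [sum_range_succ']
  have h2 : ∑ k ∈ range (n + 1), q n k * φ k = ∑ k ∈ range (n + 1), q n (k + 1) * φ (k + 1) + q n 0 * φ 0 := by
    have h3 : ∑ k ∈ range (n + 2), q n k * φ k = ∑ k ∈ range (n + 1), q n (k + 1) * φ (k + 1) + q n 0 * φ 0 := by
      rw [sum_range_succ']
    have h4 : ∑ k ∈ range (n + 2), q n k * φ k = ∑ k ∈ range (n + 1), q n k * φ k := by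
      rw [sum_range_succ]
      have : q n (n + 1) = 0 := by
        unfold q
        rw [Nat.choose_eq_zero_of_lt (by omega)]
        simp
      rw [this, zero_mul, add_zero]
    rw [← h4, h3]
  rw [h1, h2]
  have h5 : ∑ j ∈ range (n + 1), q (n + 1) (j + 1) * φ (j + 1) =
      ∑ j ∈ range (n + 1), ((q n j * φ (j + 1)) / 2 + (q n (j + 1) * φ (j + 1)) / 2) := by
    refine sum_congr rfl fun j _ => ?_
    unfold q
    rw [Nat.choose_succ_succ, pow_succ]
    push_cast
    field_simp
  have h6 : q (n + 1) 0 = q n 0 / 2 := by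
    unfold q
    rw [Nat.choose_zero_right, Nat.choose_zero_right, pow_succ]
    field_simp
  rw [h5, sum_add_distrib, h6, ← sum_div, ← sum_div]
  ring

theorem walk_Ha (g : ℝ → ℝ) (α β η : ℝ) (hη : 0 ≤ η)
    (hg : ∀ u, α ≤ u - la → u + lb ≤ β → |g u - (g (u - la) + g (u + lb)) / 2| ≤ η) (n : ℕ) :
    ∀ s : ℝ, α ≤ s - n * la → s + n * lb ≤ β →
      |g s - ∑ k ∈ range (n + 1), q n k * g (s + k * lb - (n - k) * la)| ≤ n * η := by
  have hla := la_pos
  have hlb := lb_pos
  induction n with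
  | zero =>
    intro s _ _
    simp [q]
  | succ n ih =>
    intro s h1 h2
    push_cast at h1 h2
    have hn0 : (0 : ℝ) ≤ n := Nat.cast_nonneg n
    have hnla : 0 ≤ (n : ℝ) * la := mul_nonneg hn0 hla.le
    have hnlb : 0 ≤ (n : ℝ) * lb := mul_nonneg hn0 hlb.le
    have e0 := hg s (by linarith) (by linarith)
    have e1 := ih (s - la) (by linarith) (by linarith)
    have e2 := ih (s + lb) (by linarith) (by linarith)
    have hp := pascal_Ha n (fun j => g (s + j * lb - ((n : ℝ) + 1 - j) * la))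
    have f1 : ∀ k ∈ range (n + 1), q n k * g (s - la + k * lb - (n - k) * la) =
        q n k * g (s + k * lb - ((n : ℝ) + 1 - k) * la) := by
      intro k _
      congr 2
      ring
    have f2 : ∀ k ∈ range (n + 1), q n k * g (s + lb + k * lb - (n - k) * la) =
        q n k * g (s + ((k + 1 : ℕ) : ℝ) * lb - ((n : ℝ) + 1 - ((k + 1 : ℕ) : ℝ)) * la) := by
      intro k _
      congr 2
      push_cast
      ring
    rw [sum_congr rfl f1] at e1
    rw [sum_congr rfl f2] at e2
    push_cast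
    push_cast at hp e2
    rw [hp]
    rw [abs_le] at e0 e1 e2 ⊢
    constructor <;> linarith [e0.1, e0.2, e1.1, e1.2, e2.1, e2.2]

theorem hHa : StHa := by
  intro g α β G η s n hG hη hb hg h1 h2
  have hla := la_pos
  have hlb := lb_pos
  have hn0 : (0 : ℝ) ≤ n := Nat.cast_nonneg n
  have hnla : 0 ≤ (n : ℝ) * la := mul_nonneg hn0 hla.le
  have hnlb : 0 ≤ (n : ℝ) * lb := mul_nonneg hn0 hlb.le
  have e1 := walk_Ha g α β η hη hg n (s - la) (by linarith) (by linarith)
  have e2 := walk_Ha g α β η hη hg n (s + lb) (by linarith) (by linarith)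
  set Z : ℕ → ℝ := fun j => g (s + j * lb - ((n : ℝ) + 1 - j) * la) with hZ
  have f1 : ∀ k ∈ range (n + 1), q n k * g (s - la + k * lb - (n - k) * la) = q n k * Z k := by
    intro k _
    simp only [hZ]
    congr 2
    ring
  have f2 : ∀ k ∈ range (n + 1), q n k * g (s + lb + k * lb - (n - k) * la) = q n k * Z (k + 1) := by
    intro k _
    simp only [hZ]
    congr 2
    push_cast
    ring
  rw [sum_congr rfl f1] at e1
  rw [sum_congr rfl f2] at e2
  have hdiff : |∑ k ∈ range (n + 1), q n k * Z (k + 1) - ∑ k ∈ range (n + 1), q n k * Z k| ≤ G * tau n := by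
    have k1 : ∑ k ∈ range (n + 1), q n k * Z (k + 1) =
        ∑ j ∈ range (n + 2), (if j = 0 then 0 else (n.choose (j - 1) : ℝ)) / 2 ^ n * Z j := by
      rw [sum_range_succ' _ (n + 1)]
      simp [q]
    have k2 : ∑ k ∈ range (n + 1), q n k * Z k = ∑ j ∈ range (n + 2), (n.choose j : ℝ) / 2 ^ n * Z j := by
      rw [sum_range_succ _ (n + 1)]
      rw [Nat.choose_eq_zero_of_lt (by omega : n < n + 1)]
      simp [q]
    rw [k1, k2, abs_sub_comm, ← sum_sub_distrib]
    refine (abs_sum_le_sum_abs _ _).trans ?_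
    unfold tau
    rw [mul_sum]
    refine sum_le_sum fun j hj => ?_
    rw [mem_range] at hj
    have hjn : (j : ℝ) ≤ (n : ℝ) + 1 := by
      have : j ≤ n + 1 := by omega
      exact_mod_cast this
    have hj0 : (0 : ℝ) ≤ j := Nat.cast_nonneg j
    have hZj : |Z j| ≤ G := by
      simp only [hZ]
      apply hb
      · nlinarith
      · nlinarith
    have e : (n.choose j : ℝ) / 2 ^ n * Z j - (if j = 0 then 0 else (n.choose (j - 1) : ℝ)) / 2 ^ n * Z j =
        (((n.choose j : ℝ) - (if j = 0 then 0 else (n.choose (j - 1) : ℝ))) / 2 ^ n) * Z j := by ring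
    rw [e, abs_mul, abs_div, abs_of_pos (by positivity : (0 : ℝ) < 2 ^ n), mul_comm G]
    exact mul_le_mul_of_nonneg_left hZj (by positivity)
  rw [abs_le] at e1 e2 hdiff ⊢
  constructor <;> linarith [e1.1, e1.2, e2.1, e2.2, hdiff.1, hdiff.2]

end Pool.Agent.Helper82.PRD
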